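import Mathlib

set_option autoImplicit false

/-!
# Lipschitz quotients which attain their Lipschitz constant
-/

namespace Pool.Agent.LQA18

open Filter Topology Asymptotics

/-- `N` is a norm on `E` which is equivalent to the given one. -/
structure EquivNorm {E : Type*} [NormedAddCommGroup E] [NormedSpace ℝ E] (N : E → ℝ) : Prop where
  add : ∀ x y, N (x + y) ≤ N x + N y
  smul : ∀ (t : ℝ) x, N (t • x) = |t| * N x
  equiv : ∃ a b : ℝ, 0 < a ∧ 0 < b ∧ ∀ x, a * ‖x‖ ≤ N x ∧ N x ≤ b * ‖x‖

variable {X Y : Type*} [NormedAddCommGroup X] [NormedSpace ℝ X] [NormedAddCommGroup Y]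
  [NormedSpace ℝ Y]

theorem EquivNorm.zero {N : Y → ℝ} (hN : EquivNorm N) : N 0 = 0 := by
  have := hN.smul 0 0
  simpa using this

theorem EquivNorm.neg {N : Y → ℝ} (hN : EquivNorm N) (x : Y) : N (-x) = N x := by
  have := hN.smul (-1) x
  simpa using this

theorem EquivNorm.nonneg {N : Y → ℝ} (hN : EquivNorm N) (x : Y) : 0 ≤ N x := by
  have h1 := hN.add x (-x)
  rw [add_neg_cancel, hN.zero, hN.neg] at h1
  linarith

/-- A norming functional. -/
theorem exists_support {N : Y → ℝ} (hN : EquivNorm N) (v : Y) (hv : v ≠ 0) :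
    ∃ g : Y →L[ℝ] ℝ, g v = N v ∧ ∀ w, g w ≤ N w := by
  obtain ⟨g, hg, hle⟩ := exists_extension_of_le_sublinear
    (LinearPMap.mkSpanSingleton v (N v) hv) N
    (fun c hc x => by rw [hN.smul, abs_of_pos hc]) hN.add
    (by
      rintro ⟨x, hx⟩
      obtain ⟨t, rfl⟩ := Submodule.mem_span_singleton.1 hx
      have : (LinearPMap.mkSpanSingleton v (N v) hv) ⟨t • v, hx⟩ = t • N v :=
        LinearPMap.mkSpanSingleton'_apply _ _ _ t hx
      rw [this, smul_eq_mul]
      show t * N v ≤ N (t • v)
      rw [hN.smul]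
      exact mul_le_mul_of_nonneg_right (le_abs_self t) (hN.nonneg v))
  obtain ⟨a, b, -, -, hab⟩ := hN.equiv
  refine ⟨g.mkContinuous b (fun x => ?_), ?_, hle⟩
  · rw [Real.norm_eq_abs, abs_le]
    constructor
    · have := hle (-x)
      rw [map_neg, hN.neg] at this
      linarith [(hab x).2]
    · linarith [hle x, (hab x).2]
  · have h1 := hg ⟨v, Submodule.mem_span_singleton_self v⟩
    exact h1.trans (LinearPMap.mkSpanSingleton_apply ℝ ℝ hv (N v))

theorem hasFDerivAt_norm {p : X → ℝ} (hp : EquivNorm p) (hpd : ∀ x, x ≠ 0 → DifferentiableAt ℝ p x)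
    {N : Y → ℝ} (hN : EquivNorm N) {f : X → Y} (hf : ∀ x x', N (f x - f x') ≤ p (x - x'))
    {c : ℝ} (hc : 0 < c)
    (hco : ∀ x : X, ∀ r : ℝ, 0 < r → Metric.ball (f x) (c * r) ⊆ f '' Metric.ball x r)
    {v : Y} (hv : v ≠ 0) {a b : X} {t : ℝ} (hab : a ≠ b) (ht : 0 < t)
    (hat : N (v - t • (f b - f a)) ≤ N v - t * p (b - a)) :
    DifferentiableAt ℝ N v := by
  obtain ⟨g, hgv, hg⟩ := exists_support hN v hv
  -- the slope is normed by `g`
  have hslope : p (b - a) ≤ g (f b - f a) := by
    have h1 := hg (v - t • (f b - f a))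
    rw [map_sub, map_smul, hgv, smul_eq_mul] at h1
    have h2 : t * p (b - a) ≤ t * g (f b - f a) := by linarith
    exact le_of_mul_le_mul_left h2 ht
  set m : X := (2⁻¹ : ℝ) • (a + b) with hm
  set e : X := (2⁻¹ : ℝ) • (b - a) with he
  have hma : m - a = e := by
    rw [hm, he]
    module
  have hbm : b - m = e := by
    rw [hm, he]
    module
  have hba : b - a = (2 : ℝ) • e := by
    rw [he, smul_smul]
    norm_num
  have he0 : e ≠ 0 := by
    intro h0
    rw [h0, smul_zero] at hba
    exact hab (sub_eq_zero.1 hba).symm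
  have hpba : p (b - a) = 2 * p e := by
    rw [hba, hp.smul]
    norm_num
  have hup : ∀ x x' : X, g (f x) - g (f x') ≤ p (x - x') := by
    intro x x'
    rw [← map_sub]
    exact (hg _).trans (hf x x')
  have hgm : g (f m) = g (f a) + p e := by
    have h1 := hup m a
    have h2 := hup b m
    rw [hma] at h1
    rw [hbm] at h2
    rw [hpba, map_sub] at hslope
    linarith
  have hgb : g (f b) = g (f m) + p e := by
    have h1 := hup m a
    have h2 := hup b m
    rw [hma] at h1
    rw [hbm] at h2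
    rw [hpba, map_sub] at hslope
    linarith
  -- differentiability of the norm of `X` at `e`
  obtain ⟨φ, hφ⟩ := hpd e he0
  have hderiv : ∀ ε : ℝ, 0 < ε → ∃ δ : ℝ, 0 < δ ∧ ∀ z : X, ‖z‖ < δ →
      p (e + z) ≤ p e + φ z + ε * ‖z‖ := by
    intro ε hε
    have h1 := hφ.isLittleO.def hε
    rw [Metric.eventually_nhds_iff] at h1
    obtain ⟨δ, hδ, h2⟩ := h1
    refine ⟨δ, hδ, fun z hz => ?_⟩
    have h3 := h2 (y := e + z) (by simpa [dist_eq_norm] using hz)
    rw [add_sub_cancel_left, Real.norm_eq_abs] at h3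
    have h4 := (abs_le.1 h3).2
    linarith
  have hsum : ∀ x : X, x - a = e + (x - m) := by
    intro x
    rw [← hma]
    abel
  have hsub : ∀ x : X, b - x = e + (-(x - m)) := by
    intro x
    rw [← hbm]
    abel
  refine ⟨g, ?_⟩
  rw [hasFDerivAt_iff_isLittleO, isLittleO_iff]
  intro η hη
  -- constants
  obtain ⟨δ, hδ, hd⟩ := hderiv (η * c / 4) (by positivity)
  rw [Metric.eventually_nhds_iff]
  refine ⟨δ * t * c / 2, by positivity, fun w hw => ?_⟩
  rw [dist_eq_norm] at hw
  set h : Y := w - v with hh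
  have hwv : w = v + h := by
    rw [hh]
    abel
  have hlow : 0 ≤ N w - N v - g h := by
    have h1 := hg w
    rw [hwv, map_add, hgv] at h1
    rw [hwv]
    linarith
  rw [Real.norm_eq_abs, abs_of_nonneg hlow]
  by_cases hh0 : h = 0
  · rw [hwv, hh0, add_zero, map_zero, norm_zero]
    simp
  have hhpos : 0 < ‖h‖ := norm_pos_iff.2 hh0
  -- lift of the increment
  have hmem : f m + t⁻¹ • h ∈ Metric.ball (f m) (c * (2 * ‖h‖ / (t * c))) := by
    rw [Metric.mem_ball, dist_eq_norm, add_sub_cancel_left, norm_smul, Real.norm_eq_abs,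
      abs_of_pos (inv_pos.2 ht)]
    have : c * (2 * ‖h‖ / (t * c)) = 2 * (t⁻¹ * ‖h‖) := by
      field_simp
    rw [this]
    have : 0 < t⁻¹ * ‖h‖ := by positivity
    linarith
  obtain ⟨x, hx, hfx⟩ := hco m (2 * ‖h‖ / (t * c)) (by positivity) hmem
  rw [Metric.mem_ball, dist_eq_norm] at hx
  have hxδ : ‖x - m‖ < δ := by
    refine hx.trans ?_
    rw [div_lt_iff₀ (by positivity)]
    nlinarith
  have hz1 := hd (x - m) hxδ
  have hz2 := hd (-(x - m)) (by rwa [norm_neg])
  rw [map_neg, norm_neg] at hz2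
  have hgx : g (f x) = g (f m) + t⁻¹ * g h := by
    rw [hfx, map_add, map_smul, smul_eq_mul]
  -- lower bound for `g (f x)`
  have h1 := hup b x
  rw [hsub x] at h1
  have h2 : φ (x - m) ≤ t⁻¹ * g h + η * c / 4 * ‖x - m‖ := by
    rw [hgb, hgx] at h1
    linarith
  -- upper bound for `N`
  have h3 : N (f b - f a + t⁻¹ • h) ≤ p e + p (e + (x - m)) := by
    have e1 : f b - f a + t⁻¹ • h = (f b - f m) + (f x - f a) := by
      rw [hfx]
      abel
    rw [e1]
    refine (hN.add _ _).trans (add_le_add ?_ ?_)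
    · rw [← hbm]
      exact hf b m
    · rw [← hsum x]
      exact hf x a
  have h4 : N w ≤ (N v - t * p (b - a)) + t * N (f b - f a + t⁻¹ • h) := by
    have e2 : w = (v - t • (f b - f a)) + t • (f b - f a + t⁻¹ • h) := by
      rw [smul_add, smul_smul, mul_inv_cancel₀ ht.ne', one_smul, hwv]
      abel
    calc N w = N ((v - t • (f b - f a)) + t • (f b - f a + t⁻¹ • h)) := by rw [← e2]
      _ ≤ N (v - t • (f b - f a)) + N (t • (f b - f a + t⁻¹ • h)) := hN.add _ _
      _ ≤ _ := by
        rw [hN.smul, abs_of_pos ht]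
        linarith
  have h5 : N w - N v - g h ≤ t * (η * c / 2 * ‖x - m‖) := by
    have h6 : t * N (f b - f a + t⁻¹ • h) ≤
        t * (2 * p e + t⁻¹ * g h + η * c / 2 * ‖x - m‖) := by
      apply mul_le_mul_of_nonneg_left _ ht.le
      linarith
    have h7 : t * (2 * p e + t⁻¹ * g h + η * c / 2 * ‖x - m‖) =
        2 * t * p e + g h + t * (η * c / 2 * ‖x - m‖) := by
      field_simp
    rw [hpba] at h4
    linarith
  refine h5.trans ?_
  have h8 : t * (η * c / 2 * ‖x - m‖) ≤ t * (η * c / 2 * (2 * ‖h‖ / (t * c))) := by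
    apply mul_le_mul_of_nonneg_left _ ht.le
    apply mul_le_mul_of_nonneg_left hx.le
    positivity
  refine h8.trans (le_of_eq ?_)
  field_simp

theorem bump {N : Y → ℝ} (hN : EquivNorm N) (hd : ∀ v, v ≠ 0 → DifferentiableAt ℝ N v) :
    ∃ φ : Y → ℝ, (∀ y, DifferentiableAt ℝ φ y) ∧ φ ≠ 0 ∧
      Bornology.IsBounded (Function.support φ) := by
  obtain ⟨a, b, ha, hb, hab⟩ := hN.equiv
  have hsq : ∀ y, DifferentiableAt ℝ (fun y => N y ^ 2) y := by
    intro y
    by_cases hy : y = 0
    · subst hy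
      have : HasFDerivAt (fun y => N y ^ 2) (0 : Y →L[ℝ] ℝ) 0 := by
        rw [hasFDerivAt_iff_isLittleO, isLittleO_iff]
        intro η hη
        rw [Metric.eventually_nhds_iff]
        refine ⟨η / b ^ 2, by positivity, fun w hw => ?_⟩
        rw [dist_zero_right] at hw
        have h1 := (hab w).2
        have h2 := hN.nonneg w
        rw [hN.zero]
        simp only [ne_eq, OfNat.ofNat_ne_zero, not_false_eq_true, zero_pow, sub_zero,
          zero_apply, Real.norm_eq_abs]
        rw [abs_of_nonneg (by positivity)]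
        rw [lt_div_iff₀ (by positivity)] at hw
        have h3 : N w ^ 2 ≤ (b * ‖w‖) ^ 2 := by
          apply pow_le_pow_left₀ h2 h1
        have h4 : (b * ‖w‖) ^ 2 = (‖w‖ * b ^ 2) * ‖w‖ := by ring
        rw [h4] at h3
        refine h3.trans ?_
        exact mul_le_mul_of_nonneg_right hw.le (norm_nonneg w)
      exact this.differentiableAt
    · exact (hd y hy).pow 2
  refine ⟨fun y => Real.smoothTransition (2 - N y ^ 2), ?_, ?_, ?_⟩
  · intro y
    have h1 : Differentiable ℝ Real.smoothTransition :=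
      (Real.smoothTransition.contDiff (n := 1)).differentiable (by norm_num)
    exact (h1 _).comp y ((differentiableAt_const _).sub (hsq y))
  · intro h0
    have h1 := congrFun h0 0
    rw [hN.zero] at h1
    have h2 : Real.smoothTransition (2 - 0 ^ 2) = 1 :=
      Real.smoothTransition.one_of_one_le (by norm_num)
    rw [h2] at h1
    exact one_ne_zero h1
  · rw [Metric.isBounded_iff_subset_closedBall 0]
    refine ⟨2 / a, fun y hy => ?_⟩
    rw [Metric.mem_closedBall, dist_zero_right, le_div_iff₀ ha]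
    by_contra hcon
    push Not at hcon
    apply hy
    have h1 : 2 < N y := by
      have := (hab y).1
      linarith
    exact Real.smoothTransition.zero_of_nonpos (by nlinarith)

end Pool.Agent.LQA18
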